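import Mathlib
import Pool.Agent.Lib.MP_53226a_nt.Indep
import Pool.Agent.Lib.MP_53226a_nt.Count

/-! At least `c q^(2/3)` odd characters modulo a prime `q` with `p ∤ q (q - 1)` have a
`p`-indivisible value `L(χ,0)`. -/

namespace Pool.Agent.Results.MP_53226a_nt.TwoThirds

open Pool.Agent.Lib.MP_53226a_nt

lemma integral_chi {q : ℕ} [Fact q.Prime] (χ : DirichletCharacter ℂ q) (x : ZMod q) :
    IsIntegral ℤ (χ x) := by
  by_cases hx : x = 0
  · rw [hx, MulChar.map_zero]; exact isIntegral_zero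
  · have hq : q.Prime := Fact.out
    apply IsIntegral.of_pow (n := q - 1) (by have := hq.two_le; omega)
    rw [← map_pow, ZMod.pow_card_sub_one_eq_one hx, map_one]
    exact isIntegral_one

lemma sum_zmod {q : ℕ} [NeZero q] (F : ℕ → ℂ) :
    ∑ b : ZMod q, F b.val = ∑ j ∈ Finset.range q, F j := by
  refine Finset.sum_bij (fun b _ => b.val) (fun b _ => Finset.mem_range.2 (ZMod.val_lt b))
    (fun a _ b _ h => ZMod.val_injective q h) (fun j hj => ?_) (fun _ _ => rfl)
  exact ⟨(j : ZMod q), Finset.mem_univ _, ZMod.val_cast_of_lt (Finset.mem_range.1 hj)⟩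

lemma sum_eq {q : ℕ} [Fact q.Prime] (χ : DirichletCharacter ℂ q) :
    ∑ b : ZMod q, (b.val : ℂ) * χ b = ∑ j ∈ Finset.Ico 1 q, (j : ℂ) * χ (j : ZMod q) := by
  have hq : q.Prime := Fact.out
  have := sum_zmod (q := q) (fun j => (j : ℂ) * χ (j : ZMod q))
  simp only [ZMod.natCast_val, ZMod.cast_id', id_eq] at this
  simp only [ZMod.natCast_val]
  rw [this, Finset.range_eq_Ico, Finset.sum_eq_sum_Ico_succ_bot hq.pos]
  simp

lemma even_zero {q : ℕ} [Fact q.Prime] (χ : DirichletCharacter ℂ q) (h1 : χ ≠ 1)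
    (he : χ (-1) = 1) : ∑ b : ZMod q, (b.val : ℂ) * χ b = 0 := by
  have h0 : ∑ b : ZMod q, χ b = 0 := MulChar.sum_eq_zero_of_ne_one h1
  have h2 : ∑ b : ZMod q, (b.val : ℂ) * χ b = ∑ b : ZMod q, ((-b).val : ℂ) * χ b := by
    rw [← Equiv.sum_comp (Equiv.neg (ZMod q))]
    apply Finset.sum_congr rfl
    intro b _
    simp only [Equiv.neg_apply]
    rw [show χ (-b) = χ b by rw [← neg_one_mul, map_mul, he, one_mul]]
  have h3 : ∑ b : ZMod q, (b.val : ℂ) * χ b + ∑ b : ZMod q, ((-b).val : ℂ) * χ b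
      = q * ∑ b : ZMod q, χ b := by
    rw [← Finset.sum_add_distrib, Finset.mul_sum]
    apply Finset.sum_congr rfl
    intro b _
    by_cases hb : b = 0
    · rw [hb, MulChar.map_zero]; ring
    · rw [ZMod.neg_val, if_neg hb, Nat.cast_sub (ZMod.val_lt b).le]; ring
  rw [← h2, h0] at h3
  linear_combination h3 / 2

lemma fourier {q : ℕ} [Fact q.Prime] (x : ZMod q) :
    ((q - 1 : ℕ) : ℂ) * (x.val : ℂ) =
      ∑ χ : DirichletCharacter ℂ q, χ x⁻¹ * ∑ b : ZMod q, (b.val : ℂ) * χ b := by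
  have hq : q.Prime := Fact.out
  by_cases hx : x = 0
  · subst hx
    simp [MulChar.map_zero]
  · have hu : IsUnit x := Ne.isUnit hx
    simp only [Finset.mul_sum]
    rw [Finset.sum_comm]
    have : ∀ b : ZMod q, ∑ χ : DirichletCharacter ℂ q, χ x⁻¹ * ((b.val : ℂ) * χ b)
        = (b.val : ℂ) * (if x = b then ((q - 1 : ℕ) : ℂ) else 0) := by
      intro b
      rw [← Nat.totient_prime hq, ← DirichletCharacter.sum_char_inv_mul_char_eq ℂ hu b,
        Finset.mul_sum]
      apply Finset.sum_congr rfl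
      intro χ _
      ring
    simp only [this]
    simp [mul_comm]

lemma notMem_of_coprime {p m : ℕ} (h : Nat.Coprime p m) (P : Ideal (integralClosure ℤ ℂ))
    (hP : P.IsMaximal) (hp : (p : integralClosure ℤ ℂ) ∈ P) : (m : integralClosure ℤ ℂ) ∉ P := by
  intro hm
  obtain ⟨a, b, hab⟩ := Nat.isCoprime_iff_coprime.2 h
  apply hP.ne_top
  rw [Ideal.eq_top_iff_one]
  have : (1 : integralClosure ℤ ℂ) = (a : integralClosure ℤ ℂ) * p + b * m := by
    exact_mod_cast congrArg (Int.cast : ℤ → integralClosure ℤ ℂ) hab.symm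
  rw [this]
  exact P.add_mem (P.mul_mem_left _ hp) (P.mul_mem_left _ hm)

abbrev O : Type := integralClosure ℤ ℂ

theorem card_le {p q S : ℕ} (hp : p.Prime) (hq : q.Prime) (hpq : q ≠ p) (hd : ¬ p ∣ q - 1)
    (P : Ideal (integralClosure ℤ ℂ)) (hP : P.IsMaximal) (hpP : (p : integralClosure ℤ ℂ) ∈ P)
    (hS : 4 ≤ S) (hqS : 20 * S ^ 3 ≤ q) {K : Type} [Field K] (π : O →+* K)
    (hπ : ∀ a, π a = 0 ↔ a ∈ P) :
    (fam S).card ≤ ({χ : DirichletCharacter ℂ q |
      χ (-1 : ZMod q) = -1 ∧ ∃ a b : integralClosure ℤ ℂ, a ∉ P ∧ b ∉ P ∧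
        (b : ℂ) * (-(1 / (q : ℂ)) * ∑ k ∈ Finset.Ico 1 q, (k : ℂ) * χ (k : ZMod q)) = (a : ℂ)}
      : Set (DirichletCharacter ℂ q)).ncard + 1 := by
  classical
  have : Fact q.Prime := ⟨hq⟩
  have hqP : (q : O) ∉ P := notMem_of_coprime ((Nat.coprime_primes hp hq).2 hpq.symm) P hP hpP
  have hq1P : ((q - 1 : ℕ) : O) ∉ P :=
    notMem_of_coprime ((Nat.Prime.coprime_iff_not_dvd hp).2 hd) P hP hpP
  have hqk : (q : K) ≠ 0 := by
    rw [← map_natCast π, Ne, hπ]; exact hqP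
  have hq1k : ((q - 1 : ℕ) : K) ≠ 0 := by
    rw [← map_natCast π, Ne, hπ]; exact hq1P
  set ch : DirichletCharacter ℂ q → ZMod q → O := fun χ x => ⟨χ x, integral_chi χ x⟩ with hch
  set Bs : DirichletCharacter ℂ q → O := fun χ => ∑ b : ZMod q, (b.val : O) * ch χ b with hBs
  have hBc : ∀ χ, (Bs χ : ℂ) = ∑ b : ZMod q, (b.val : ℂ) * χ b := by
    intro χ
    simp only [hBs, hch]
    push_cast
    rfl
  have hmul : ∀ χ x y, ch χ (x * y) = ch χ x * ch χ y := by
    intro χ x y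
    apply Subtype.ext
    simp [hch]
  have hF : ∀ x : ZMod q, ((q - 1 : ℕ) : O) * (x.val : O) = ∑ χ, ch χ x⁻¹ * Bs χ := by
    intro x
    apply Subtype.ext
    have := fourier x
    simp only [← hBc] at this
    push_cast at this ⊢
    exact this
  set Z : Finset (DirichletCharacter ℂ q) := Finset.univ.filter fun χ => Bs χ ∉ P with hZ
  set e : DirichletCharacter ℂ q → (ZMod q → K) := fun χ x => π (ch χ x⁻¹) with he
  set U : Submodule K (ZMod q → K) := Submodule.span K (Z.image e : Set _)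
    with hU
  have hmemU : ∀ y : ZMod q, (fun x : ZMod q => (((x * y).val : ℕ) : K)) ∈ U := by
    intro y
    have : (fun x : ZMod q => (((x * y).val : ℕ) : K)) =
        ∑ χ ∈ Z, ((((q - 1 : ℕ) : K))⁻¹ * π (ch χ y⁻¹) * π (Bs χ)) • e χ := by
      funext x
      have h1 := congrArg π (hF (x * y))
      rw [map_mul, map_natCast, map_natCast, map_sum] at h1
      have h2 : ∑ χ, π (ch χ (x * y)⁻¹ * Bs χ) = ∑ χ ∈ Z, π (ch χ (x * y)⁻¹ * Bs χ) := by
        symm
        apply Finset.sum_subset (Finset.subset_univ _)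
        intro χ _ hχ
        have : Bs χ ∈ P := by simpa [hZ] using hχ
        rw [map_mul, (hπ _).2 this, mul_zero]
      rw [h2] at h1
      apply mul_left_cancel₀ hq1k
      rw [h1, Finset.sum_apply, Finset.mul_sum]
      apply Finset.sum_congr rfl
      intro χ _
      rw [mul_inv, hmul, map_mul, map_mul]
      simp only [he, Pi.smul_apply, smul_eq_mul]
      field_simp
    rw [this]
    apply U.sum_mem
    intro χ hχ
    exact U.smul_mem _ (Submodule.subset_span (by simpa using ⟨χ, hχ, rfl⟩))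
  have hli := indep (k := K) (q := q) hS hqS hqk
  have hli2 : LinearIndependent K (fun y : fam S =>
      (⟨fun x : ZMod q => (((x * ((y.1.1 : ZMod q) * (y.1.2 : ZMod q)⁻¹)).val : ℕ) : K),
        hmemU _⟩ : U)) := by
    apply LinearIndependent.of_comp U.subtype
    simp only [mul_assoc] at hli
    exact hli
  have h1 := hli2.fintype_card_le_finrank
  rw [Fintype.card_coe] at h1
  have h2 : Module.finrank K U ≤ Z.card :=
    (finrank_span_finset_le_card (Z.image e)).trans Finset.card_image_le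
  refine h1.trans (h2.trans ?_)
  rw [← Set.ncard_coe_finset]
  refine (Set.ncard_le_ncard (t := insert 1 _) ?_ (Set.toFinite _)).trans (Set.ncard_insert_le _ _)
  intro χ hχ
  have hχ' : Bs χ ∉ P := by simpa [hZ] using hχ
  by_cases h1 : χ = 1
  · exact Or.inl h1
  right
  rcases DirichletCharacter.even_or_odd χ with hev | hodd
  · exfalso
    apply hχ'
    have : Bs χ = 0 := by
      apply Subtype.ext
      rw [hBc]
      exact even_zero χ h1 hev
    rw [this]; exact P.zero_mem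
  · refine ⟨hodd, -Bs χ, (q : O), fun h => hχ' (P.neg_mem_iff.1 h), hqP, ?_⟩
    have hq0 : (q : ℂ) ≠ 0 := by exact_mod_cast hq.ne_zero
    push_cast
    rw [hBc, sum_eq]
    field_simp

theorem result :
    ∃ c : ℝ, 0 < c ∧ ∃ Q : ℕ, ∀ p : ℕ, p.Prime → p ≠ 2 → ∀ q : ℕ, q.Prime → Q ≤ q → q ≠ p →
      ¬ p ∣ q - 1 → ∀ P : Ideal (integralClosure ℤ ℂ), P.IsMaximal →
        ((p : integralClosure ℤ ℂ) ∈ P) →
          c * (q : ℝ) ^ (2 / 3 : ℝ) ≤
            (({χ : DirichletCharacter ℂ q |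
                χ (-1 : ZMod q) = -1 ∧
                ∃ a b : integralClosure ℤ ℂ, a ∉ P ∧ b ∉ P ∧
                  (b : ℂ) * (-(1 / (q : ℂ)) *
                    ∑ k ∈ Finset.Ico 1 q, (k : ℂ) * χ (k : ZMod q)) = (a : ℂ)}
              : Set (DirichletCharacter ℂ q)).ncard : ℝ) := by
  refine ⟨1 / 2000, by norm_num, 20 * 80000 ^ 3, ?_⟩
  intro p hp _ q hq hQ hpq hd P hP hpP
  have hex : ∃ S : ℕ, q < 20 * (S + 1) ^ 3 := ⟨q, by nlinarith [Nat.le_self_pow three_ne_zero (q + 1)]⟩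
  set S := Nat.find hex with hS
  have h1 : q < 20 * (S + 1) ^ 3 := Nat.find_spec hex
  have hS0 : 80000 ≤ S := by
    by_contra h
    have : (S + 1) ^ 3 ≤ 80000 ^ 3 := Nat.pow_le_pow_left (by omega) 3
    omega
  have h2 : 20 * S ^ 3 ≤ q := by
    have := Nat.find_min hex (m := S - 1) (by omega)
    rw [show S - 1 + 1 = S by omega] at this
    omega
  have h3 := @card_le p q S hp hq hpq hd P hP hpP (by omega) h2 (O ⧸ P) (Ideal.Quotient.field P)
    (Ideal.Quotient.mk P) (fun a => Ideal.Quotient.eq_zero_iff_mem)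
  have h4 := card_fam hS0
  set N := ({χ : DirichletCharacter ℂ q |
      χ (-1 : ZMod q) = -1 ∧ ∃ a b : integralClosure ℤ ℂ, a ∉ P ∧ b ∉ P ∧
        (b : ℂ) * (-(1 / (q : ℂ)) * ∑ k ∈ Finset.Ico 1 q, (k : ℂ) * χ (k : ZMod q)) = (a : ℂ)}
      : Set (DirichletCharacter ℂ q)).ncard
  have h5 : ((fam S).card : ℝ) ≤ N + 1 := by exact_mod_cast h3
  have hSR : (80000 : ℝ) ≤ S := by exact_mod_cast hS0
  have h6 : (q : ℝ) ≤ (3 * (S : ℝ)) ^ 3 := by
    have : (q : ℝ) ≤ 20 * (S + 1) ^ 3 := by exact_mod_cast h1.le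
    have h7 : (S : ℝ) + 1 ≤ 11 / 10 * S := by linarith
    have h8 := pow_le_pow_left₀ (by positivity) h7 3
    have h9 : (0 : ℝ) ≤ (S : ℝ) ^ 3 := by positivity
    nlinarith
  have h7 : (q : ℝ) ^ (2 / 3 : ℝ) ≤ (3 * (S : ℝ)) ^ 2 := by
    calc (q : ℝ) ^ (2 / 3 : ℝ) ≤ ((3 * (S : ℝ)) ^ 3) ^ (2 / 3 : ℝ) :=
          Real.rpow_le_rpow (by positivity) h6 (by norm_num)
      _ = (3 * (S : ℝ)) ^ 2 := by
          rw [← Real.rpow_natCast, ← Real.rpow_mul (by positivity)]
          norm_num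
  nlinarith

end Pool.Agent.Results.MP_53226a_nt.TwoThirds
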