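import Pool.Agent.Lib.MP_53226a_nt.H86All
import Pool.Agent.Variants.MP_53226a_nt.AboveHalf

/-! An exponent above `1/2`, for all large primes `q`, for the number of odd characters modulo `q`
whose value `L(χ,0)` has `p`-adic valuation below `1 / φ(p ^ k)`. -/

namespace Pool.Agent.Results.MP_53226a_nt.AllModuli

open Pool.Agent.Lib.MP_53226a_nt.H7 Pool.Agent.Results.MP_53226a_nt.TwoThirds Finset Filter
open Pool.Agent.Lib.MP_53226a_nt.H86 Pool.Agent.Results.MP_53226a_nt.AboveHalf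

theorem small_val {p : ℕ} (hp : p.Prime) (hp2 : p ≠ 2) (k : ℕ) {θ : ℝ} (hθ0 : 0 ≤ θ)
    (hθ : θ < 2 / (4 - (2 / 3 : ℝ) ^ (Nat.totient (p ^ (k + 1)) - 1))) :
    ∃ Q : ℕ, ∀ q : ℕ, q.Prime → Q ≤ q → p ^ (k + 1) ∣ q - 1 →
      ∀ P : Ideal (integralClosure ℤ ℂ), P.IsMaximal → ((p : integralClosure ℤ ℂ) ∈ P) →
        (q : ℝ) ^ θ ≤
          (({χ : DirichletCharacter ℂ q |
              χ (-1 : ZMod q) = -1 ∧ ¬ ∃ a b : integralClosure ℤ ℂ, b ∉ P ∧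
                (b : ℂ) * (-(1 / (q : ℂ)) * ∑ i ∈ Finset.Ico 1 q, (i : ℂ) * χ (i : ZMod q)) ^
                  Nat.totient (p ^ (k + 1)) = p * a}
            : Set (DirichletCharacter ℂ q)).ncard : ℝ) := by
  classical
  set j := Nat.totient (p ^ (k + 1)) - 1 with hj
  have hn : 0 < p ^ k := pow_pos hp.pos k
  have hm : (p - 1) * p ^ k = j + 1 := by
    rw [hj, Nat.sub_add_cancel (Nat.totient_pos.2 (pow_pos hp.pos _)),
      Nat.totient_prime_pow_succ hp, mul_comm]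
  obtain ⟨M, C, H⟩ := indep hp hp2 hn (cyc_prime_pow hp k) hm
  obtain ⟨r, δ, h1, h2, h3, h4⟩ :=
    params (by positivity) (pow_le_one₀ (by norm_num) (by norm_num)) hθ0 hθ
  obtain ⟨t₁, ht₁⟩ := eventually_atTop.1 (van_pow p h1 h2 j (r + 1 + 1) (by omega) h3)
  refine ⟨(t₁ + M + C + 2 ^ (r + δ + 2) + 2) ^ ((r + δ + 2) * (j + 1)) + p + 1, ?_⟩
  intro q hq hQ hd1 P hP hpP
  obtain ⟨t, ht, hq1, hq2⟩ := exists_base (E := (r + δ + 2) * (j + 1)) (q := q)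
    (t₀ := t₁ + M + C + 2 ^ (r + δ + 2) + 2) (by positivity) (by omega)
  obtain ⟨b1, b2, b3, b4, b5⟩ : t₁ ≤ t ∧ M ≤ t ∧ C ≤ t ∧ 2 ^ (r + δ + 2) ≤ t ∧ 2 ≤ t := by
    generalize 2 ^ (r + δ + 2) = w at ht
    omega
  have hqp : q ≠ p := by omega
  clear ht hQ
  have : Fact q.Prime := ⟨hq⟩
  obtain ⟨d, hd⟩ := hd1
  let : Field (O ⧸ P) := Ideal.Quotient.field P
  set π : O →+* AlgebraicClosure (O ⧸ P) := (algebraMap (O ⧸ P) _).comp (Ideal.Quotient.mk P)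
  have hπ : ∀ a, π a = 0 ↔ a ∈ P := fun a => by
    rw [RingHom.comp_apply, map_eq_zero, Ideal.Quotient.eq_zero_iff_mem]
  have hne : ∀ a : ℕ, ¬ p ∣ a → (a : AlgebraicClosure (O ⧸ P)) ≠ 0 := fun a ha => by
    rw [← map_natCast π, Ne, hπ]
    exact notMem_of_coprime ((Nat.Prime.coprime_iff_not_dvd hp).2 ha) P hP hpP
  have hF : ∀ a : ℕ, a.Prime → a ≠ p → (a : AlgebraicClosure (O ⧸ P)) ≠ 0 := fun a ha hap =>
    hne a fun h => hap ((Nat.prime_dvd_prime_iff_eq hp ha).1 h).symm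
  obtain ⟨ζ, hζ⟩ := HasEnoughRootsOfUnity.exists_primitiveRoot (ZMod q) (q - 1)
  have hq0 : 0 < q - 1 := by have := hq.two_le; omega
  have hζ1 : IsPrimitiveRoot (((ζ ^ d).val : ℕ) : ZMod q) (p ^ k * p) := by
    rw [ZMod.natCast_zmod_val]
    exact hζ.pow hq0 (by rw [hd, pow_succ, mul_comm])
  set h := (ζ ^ d).val with hh
  have hsum : q ∣ ∑ b ∈ range p, h ^ (b * p ^ k) := by
    rw [← ZMod.natCast_eq_zero_iff,
      ← (hζ1.pow (Nat.mul_pos hn hp.pos) rfl).geom_sum_eq_zero hp.one_lt]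
    push_cast
    exact sum_congr rfl fun b _ => by rw [← pow_mul, mul_comm]
  have ht0 : 0 < t := by omega
  obtain ⟨y, hy⟩ := H _ hF q h (t ^ (r + 1)) (t ^ δ) (t ^ (r + 1 + 1)) (hF q hq hqp)
    (pow_pos ht0 _) (by rw [pow_succ' t (r + 1)]; exact Nat.mul_le_mul_right _ b2)
    (by
      refine lt_of_le_of_lt ?_ hq1
      rw [pow_mul]
      refine Nat.pow_le_pow_left ?_ _
      rw [mul_assoc, ← pow_add, show r + δ + 2 = r + 1 + δ + 1 by ring, pow_succ' t (r + 1 + δ)]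
      exact Nat.mul_le_mul_right _ b3)
    hsum (ht₁ t b1 _ hF)
  obtain ⟨e, m, hpm, hdm⟩ := Nat.exists_eq_pow_mul_and_not_dvd (n := d)
    (fun h0 => by rw [hd, h0, mul_zero] at hq0; exact lt_irrefl _ hq0) p hp.ne_one
  have h5 := card_le_small (j := k) (k := e) hp hp2 (by rw [hd, hdm]; ring) hpm P hP hpP π hπ hζ
    (by rw [hh, ZMod.natCast_zmod_val, hdm, mul_comm]) y hy
  rw [Fintype.card_fun, Fintype.card_fin, Fintype.card_fin] at h5
  have h6 : q ≤ (t ^ (j + 1)) ^ (r + δ + 3) := by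
    refine hq2.trans ?_
    rw [pow_mul, ← pow_mul t, mul_comm (j + 1), pow_mul]
    refine Nat.pow_le_pow_left ?_ _
    refine (Nat.pow_le_pow_left (show t + 1 ≤ 2 * t by omega) _).trans ?_
    rw [mul_pow, pow_succ' t (r + δ + 2)]
    exact Nat.mul_le_mul_right _ b4
  have h7 : 2 ≤ t ^ (j + 1) := b5.trans (Nat.le_self_pow j.succ_ne_zero t)
  rw [← pow_mul, mul_comm (r + 1), pow_mul] at h5
  generalize t ^ (j + 1) = s at h5 h6 h7
  have h8 : s ^ r + 1 ≤ s ^ (r + 1) := by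
    have := Nat.one_le_pow r s (by omega)
    rw [pow_succ]
    nlinarith
  have hs : (1 : ℝ) ≤ s := by exact_mod_cast (by omega : 1 ≤ s)
  calc (q : ℝ) ^ θ ≤ ((s : ℝ) ^ (r + δ + 3)) ^ θ :=
        Real.rpow_le_rpow (by positivity) (by exact_mod_cast h6) hθ0
    _ = (s : ℝ) ^ (((r + δ + 3 : ℕ) : ℝ) * θ) := by
        rw [← Real.rpow_natCast, ← Real.rpow_mul (by positivity)]
    _ ≤ (s : ℝ) ^ (r : ℝ) := Real.rpow_le_rpow_of_exponent_le hs h4
    _ ≤ _ := by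
        rw [Real.rpow_natCast]
        exact_mod_cast (Nat.le_succ _).trans (h8.trans h5)

theorem result :
    ∀ p : ℕ, p.Prime → p ≠ 2 → ∀ k : ℕ, 1 ≤ k → ∀ θ : ℝ,
      θ < 2 / (4 - (2 / 3 : ℝ) ^ (Nat.totient (p ^ k) - 1)) →
      ∃ Q : ℕ, ∀ q : ℕ, q.Prime → Q ≤ q →
        ∀ P : Ideal (integralClosure ℤ ℂ), P.IsMaximal → ((p : integralClosure ℤ ℂ) ∈ P) →
          (q : ℝ) ^ θ ≤
            (({χ : DirichletCharacter ℂ q |
                χ (-1 : ZMod q) = -1 ∧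
                (¬ ∃ a b : integralClosure ℤ ℂ, b ∉ P ∧
                  (b : ℂ) * (-(1 / (q : ℂ)) *
                    ∑ i ∈ Finset.Ico 1 q, (i : ℂ) * χ (i : ZMod q)) ^ Nat.totient (p ^ k)
                    = (p : ℂ) * (a : ℂ)) ∧
                (¬ p ^ (k + 1) ∣ q - 1 → ∃ a b : integralClosure ℤ ℂ, a ∉ P ∧ b ∉ P ∧
                  (b : ℂ) * (-(1 / (q : ℂ)) *
                    ∑ i ∈ Finset.Ico 1 q, (i : ℂ) * χ (i : ZMod q)) = (a : ℂ))}
              : Set (DirichletCharacter ℂ q)).ncard : ℝ) := by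
  intro p hp hp2 k hk θ hθ
  obtain ⟨k, rfl⟩ := Nat.exists_eq_add_of_le' hk
  obtain ⟨Q₁, H₁⟩ := AboveHalf.result p hp hp2 (k + 1) θ hθ
  obtain ⟨Q₂, H₂⟩ := small_val hp hp2 k (le_max_right θ 0) (max_lt hθ (div_pos two_pos (by
    have : ((2 : ℝ) / 3) ^ (Nat.totient (p ^ (k + 1)) - 1) ≤ 1 :=
      pow_le_one₀ (by norm_num) (by norm_num)
    linarith)))
  refine ⟨Q₁ + Q₂, fun q hq hQ P hP hpP => ?_⟩
  have : Fact q.Prime := ⟨hq⟩
  by_cases h : p ^ (k + 1 + 1) ∣ q - 1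
  · refine ((Real.rpow_le_rpow_of_exponent_le (by exact_mod_cast hq.one_le) (le_max_left θ 0)).trans
      (H₂ q hq (by omega) ((pow_dvd_pow p (Nat.le_succ _)).trans h) P hP hpP)).trans ?_
    exact Nat.cast_le.2 (Set.ncard_le_ncard (fun χ hχ => ⟨hχ.1, hχ.2, fun h0 => absurd h h0⟩)
      (Set.toFinite _))
  · refine (H₁ q hq (by omega) h P hP hpP).trans ?_
    refine Nat.cast_le.2 (Set.ncard_le_ncard (fun χ hχ => ⟨hχ.1, ?_, fun _ => hχ.2⟩)
      (Set.toFinite _))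
    obtain ⟨-, a', b', ha', -, h1⟩ := hχ
    rintro ⟨a, b, hb, h2⟩
    have h3 : b * a' ^ Nat.totient (p ^ (k + 1)) = b' ^ Nat.totient (p ^ (k + 1)) * a * p := by
      apply Subtype.ext
      push_cast
      rw [← h1, mul_pow, mul_left_comm, h2]
      ring
    exact ha' (hP.isPrime.mem_of_pow_mem _
      ((hP.isPrime.mem_or_mem (h3 ▸ P.mul_mem_left _ hpP)).resolve_left hb))

end Pool.Agent.Results.MP_53226a_nt.AllModuli
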