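import Mathlib
import Pool.Agent.Lib.MP_53226a_nt.ZeroDefs
import Pool.Agent.Lib.MP_53226a_nt.H61A
import Pool.Agent.Lib.MP_53226a_nt.H61F

/-! At every large scale all but boundedly many odd primes `p` of a finite set have at least
`q^(1-ε)` odd characters modulo `q` with a `p`-indivisible value `L(χ,0)` for most primes `q`. -/

namespace Pool.Agent.Results.MP_53226a_nt.AlmostAll

open Pool.Agent.Lib.MP_53226a_nt.Zero

theorem result :
    ∀ ε : ℝ, 0 < ε → ∃ C : ℕ, ∀ A : Finset ℕ, (∀ p ∈ A, p.Prime ∧ p ≠ 2) →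
      ∀ᶠ x : ℕ in Filter.atTop,
        ({p : ℕ | p ∈ A ∧ ε * (Nat.primeCounting x : ℝ) <
            (({q : ℕ | q.Prime ∧ q ≤ x ∧ ∃ P : Ideal (integralClosure ℤ ℂ), P.IsMaximal ∧
                (p : integralClosure ℤ ℂ) ∈ P ∧ (N q P : ℝ) < (q : ℝ) ^ (1 - ε)}
              : Set ℕ).ncard : ℝ)} : Set ℕ).ncard ≤ C :=
  Pool.Agent.Lib.MP_53226a_nt.H61.scale_p Pool.Agent.Lib.MP_53226a_nt.H61.most_q

end Pool.Agent.Results.MP_53226a_nt.AlmostAll
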