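import Mathlib
import Pool.Agent.Lib.MP_53226a_nt.H17D

/-! The function field analogue over the prime field: for every monic irreducible modulus of large
degree in `F_p[T]`, a positive proportion of the odd characters have `L(χ,0)` prime to `p`. -/

namespace Pool.Agent.Results.MP_53226a_nt.FunctionField

theorem result :
    ∀ p : ℕ, p.Prime → p ≠ 2 →
      ∃ c : ℝ, 0 < c ∧ ∃ D : ℕ, ∀ Q : Polynomial (ZMod p), Q.Monic → Irreducible Q →
        D ≤ Q.natDegree → ∀ P : Ideal (integralClosure ℤ ℂ), P.IsMaximal →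
          ((p : integralClosure ℤ ℂ) ∈ P) →
            c * ((p : ℝ) ^ Q.natDegree - 1) / 2 ≤
              (({χ : MulChar (Polynomial (ZMod p) ⧸ Ideal.span {Q}) ℂ |
                  χ (-1) = -1 ∧
                  ∃ a b : integralClosure ℤ ℂ, a ∉ P ∧ b ∉ P ∧
                    (b : ℂ) * (∑ᶠ f ∈ {f : Polynomial (ZMod p) | f.Monic ∧
                      f.natDegree < Q.natDegree}, χ (Ideal.Quotient.mk _ f)) = (a : ℂ)}
                : Set (MulChar (Polynomial (ZMod p) ⧸ Ideal.span {Q}) ℂ)).ncard : ℝ) := by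
  intro p hp h2
  have := Fact.mk hp
  set L : ℕ := 4 * p * (((p - 1) * (4 * p * (p - 1)) + 1) *
    (16 * p) ^ ((p - 1) * (4 * p * (p - 1)))) * (16 * p) with hL
  have hL0 : (0 : ℝ) < L := by
    have := hp.pos
    exact_mod_cast (by positivity : 0 < L)
  refine ⟨1 / L, by positivity, 4 * p * (p - 1) ^ 3 + 16 * p * (4 * p * (p - 1) + p),
    fun Q hQ hI hd P hP hpP => ?_⟩
  let := Ideal.Quotient.field P
  have : CharP (integralClosure ℤ ℂ ⧸ P) p := (CharP.charP_iff_prime_eq_zero hp).2 (by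
    rw [← map_natCast (Ideal.Quotient.mk P)]
    exact Ideal.Quotient.eq_zero_iff_mem.2 hpP)
  have h := Pool.Agent.Lib.MP_53226a_nt.H17.count (hp.odd_of_ne_two h2) (Ideal.Quotient.mk P)
    hQ hI hd
  rw [← mul_assoc, ← hL] at h
  have h1 := h.trans (Nat.mul_le_mul_left L (Set.ncard_le_ncard (t := {χ : MulChar (AdjoinRoot Q) ℂ |
      χ (-1) = -1 ∧ ∃ a b : integralClosure ℤ ℂ, a ∉ P ∧ b ∉ P ∧
        (b : ℂ) * (∑ᶠ f ∈ {f : Polynomial (ZMod p) | f.Monic ∧ f.natDegree < Q.natDegree},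
          χ (AdjoinRoot.mk Q f)) = (a : ℂ)}) ?_ ?_))
  · have h3 := (Nat.cast_le (α := ℝ)).2 h1
    push_cast at h3
    refine le_trans ?_ ((div_le_iff₀' hL0).2 h3)
    have : (0 : ℝ) ≤ (p : ℝ) ^ Q.natDegree / L := by positivity
    have h4 : (0 : ℝ) < 1 / L := by positivity
    calc 1 / (L : ℝ) * ((p : ℝ) ^ Q.natDegree - 1) / 2
        = ((p : ℝ) ^ Q.natDegree / L - 1 / L) / 2 := by ring
      _ ≤ _ := by linarith
  · rintro χ ⟨h3, a, h4, h5⟩
    exact ⟨h3, a, 1, fun h => h4 (Ideal.Quotient.eq_zero_iff_mem.2 h),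
      (Ideal.ne_top_iff_one P).1 hP.ne_top, by simpa using h5⟩
  · have := Fact.mk hI
    have := (AdjoinRoot.powerBasis hQ.ne_zero).finite
    have : Finite (AdjoinRoot Q) := Module.finite_of_finite (ZMod p)
    exact Set.toFinite _

end Pool.Agent.Results.MP_53226a_nt.FunctionField
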